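import Mathlib

/-!
# On-line graph colouring: the quantity `φ(k, n)`

An on-line graph on `n` vertices is a simple graph on `Fin n`; the vertices are revealed in the
order `0, 1, ..., n - 1`.
-/

set_option autoImplicit false

namespace Pool.Agent.H64.OC

/-- A deterministic on-line colouring algorithm.  When vertex number `s` arrives, it sees the
graph induced on the vertices `0, ..., s`, and it answers with a colour for the vertex `s`. -/
abbrev OnlineAlg := (s : ℕ) → SimpleGraph (Fin (s + 1)) → ℕ

/-- The subgraph of `G` induced on the vertices `0, ..., i`. -/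
def initial {n : ℕ} (G : SimpleGraph (Fin n)) (i : Fin n) : SimpleGraph (Fin (i.val + 1)) :=
  G.comap (Fin.castLE i.isLt)

/-- The colour that the algorithm `A` gives to the vertex `i` of the on-line graph `G`. -/
def OnlineAlg.colour (A : OnlineAlg) {n : ℕ} (G : SimpleGraph (Fin n)) (i : Fin n) : ℕ :=
  A i.val (initial G i)

/-- The algorithm colours every on-line graph properly. -/
def OnlineAlg.Proper (A : OnlineAlg) : Prop :=
  ∀ (n : ℕ) (G : SimpleGraph (Fin n)) (i j : Fin n), G.Adj i j → A.colour G i ≠ A.colour G j

/-- The number of distinct colours that `A` uses on `G`. -/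
def OnlineAlg.numColours (A : OnlineAlg) {n : ℕ} (G : SimpleGraph (Fin n)) : ℕ :=
  (Finset.univ.image (A.colour G)).card

/-- `φ(k, n)`: the least `t` such that some on-line colouring algorithm uses at most `t` colours
on every `k`-colourable on-line graph on `n` vertices. -/
noncomputable def phi (k n : ℕ) : ℕ :=
  sInf {t : ℕ | ∃ A : OnlineAlg, A.Proper ∧
    ∀ G : SimpleGraph (Fin n), G.Colorable k → A.numColours G ≤ t}

end Pool.Agent.H64.OC
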