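import Pool.Agent.H64.OC.Step

/-!
# On-line colouring of 3-colourable graphs: the whole strategy
-/

set_option autoImplicit false

namespace Pool.Agent.H64.OC

open Finset

/-- number of slots at depth `i` below the top level -/
def slots (B : ℕ) : ℕ → ℕ
  | 0 => 1
  | i + 1 => 3 * (slots B i * B * B) + 1

theorem one_le_slots (B i : ℕ) : 1 ≤ slots B i := by
  cases i with
  | zero => exact le_rfl
  | succ i => simp only [slots]; omega

theorem slots_le {B : ℕ} (hB : 1 ≤ B) (i : ℕ) : slots B i ≤ (4 * B ^ 2) ^ i := by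
  induction i with
  | zero => simp [slots]
  | succ i ih =>
    have h1 : 1 ≤ slots B i * B * B :=
      Nat.mul_pos (Nat.mul_pos (one_le_slots B i) hB) hB
    calc slots B (i + 1) = 3 * (slots B i * B * B) + 1 := rfl
      _ ≤ 4 * (slots B i * B * B) := by omega
      _ = slots B i * (4 * B ^ 2) := by ring
      _ ≤ (4 * B ^ 2) ^ i * (4 * B ^ 2) := Nat.mul_le_mul_right _ ih
      _ = (4 * B ^ 2) ^ (i + 1) := (pow_succ _ _).symm

/-- number of vertices of an object of level `j` (top level `J`) -/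
def verts (B J : ℕ) : ℕ → ℕ
  | 0 => slots B J * B
  | j + 1 => slots B (J - (j + 1)) * B * B * (verts B J j + verts B J j + verts B J j)

theorem verts_le {B : ℕ} (hB : 1 ≤ B) (J j : ℕ) :
    verts B J j ≤ (4 * B ^ 2) ^ ((J + 1) * (j + 1)) := by
  have hX : 1 ≤ 4 * B ^ 2 := Nat.mul_pos (by norm_num) (pow_pos hB 2)
  have hs : ∀ i ≤ J, slots B i * B * B * 3 ≤ (4 * B ^ 2) ^ (J + 1) := by
    intro i hi
    calc slots B i * B * B * 3 = slots B i * (3 * B ^ 2) := by ring
      _ ≤ (4 * B ^ 2) ^ i * (4 * B ^ 2) :=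
        Nat.mul_le_mul (slots_le hB i) (Nat.mul_le_mul_right _ (by norm_num))
      _ = (4 * B ^ 2) ^ (i + 1) := (pow_succ _ _).symm
      _ ≤ (4 * B ^ 2) ^ (J + 1) := Nat.pow_le_pow_right hX (by omega)
  induction j with
  | zero =>
    have h1 : slots B J * B ≤ slots B J * B * B * 3 := by
      have : 1 ≤ B * 3 := by omega
      calc slots B J * B = slots B J * B * 1 := (mul_one _).symm
        _ ≤ slots B J * B * (B * 3) := Nat.mul_le_mul_left _ this
        _ = slots B J * B * B * 3 := by ring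
    simp only [verts, zero_add, mul_one]
    exact h1.trans (hs J le_rfl)
  | succ j ih =>
    have e : (J + 1) * (j + 1 + 1) = (J + 1) + (J + 1) * (j + 1) := by ring
    rw [e, pow_add]
    calc verts B J (j + 1)
        = slots B (J - (j + 1)) * B * B * (verts B J j + verts B J j + verts B J j) := rfl
      _ = slots B (J - (j + 1)) * B * B * 3 * verts B J j := by ring
      _ ≤ _ := Nat.mul_le_mul (hs _ (Nat.sub_le _ _)) ih

/-- size of the common set of bins of an object of level `j` -/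
def sz : ℕ → ℕ
  | 0 => 1
  | j + 1 => (3 * sz j + 1) / 2

theorem sz_ge (j : ℕ) : 3 ^ j ≤ sz j * 2 ^ j := by
  induction j with
  | zero => simp [sz]
  | succ j ih =>
    have h1 : 3 * sz j ≤ 2 * sz (j + 1) := by
      simp only [sz]; omega
    calc 3 ^ (j + 1) = 3 ^ j * 3 := pow_succ _ _
      _ ≤ sz j * 2 ^ j * 3 := Nat.mul_le_mul_right _ ih
      _ = (3 * sz j) * 2 ^ j := by ring
      _ ≤ (2 * sz (j + 1)) * 2 ^ j := Nat.mul_le_mul_right _ h1
      _ = sz (j + 1) * 2 ^ (j + 1) := by ring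

theorem obj_all (P : Painter) {B : ℕ} (hB : 1 ≤ B) (J : ℕ) (j : ℕ) (hj : j ≤ J) :
    Obj P (fun l => 3 * (slots B (J - (l + 1)) * B * B)) B j (slots B (J - j)) (verts B J j)
      (sz j) := by
  induction j with
  | zero => exact obj_zero P _ B _ hB (one_le_slots B _)
  | succ j ih =>
    have h1 := ih (by omega)
    have hJ : J - j = (J - (j + 1)) + 1 := by omega
    have hpos : ∀ l, 1 ≤ 3 * (slots B (J - (l + 1)) * B * B) := by
      intro l
      have : 1 ≤ slots B (J - (l + 1)) * B * B :=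
        Nat.mul_pos (Nat.mul_pos (one_le_slots B _) hB) hB
      omega
    have hq : ∀ l, ∃ q, Pos (fun l => 3 * (slots B (J - (l + 1)) * B * B)) l q := by
      intro l
      induction l with
      | zero => exact ⟨[], rfl⟩
      | succ l ih =>
        obtain ⟨q, hq⟩ := ih
        exact ⟨0 :: q, pos_cons.2 ⟨hpos l, hq⟩⟩
    have h2 : slots B (J - j) = 3 * (slots B (J - (j + 1)) * B * B) + 1 := by
      rw [hJ]; rfl
    rw [h2] at h1
    exact obj_succ hB (one_le_slots B _) rfl (hq j) h1

/-- **The Presenter strategy.** -/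
theorem strategy (P : Painter) {B : ℕ} (hB : 1 ≤ B) (J : ℕ) (hJ : B < sz J) :
    ∃ H : Hist, (∃ χ : ℕ → Fin 3, ∀ x < verts B J J, ∀ y ∈ H x, y < x → χ y ≠ χ x) ∧
      B < (P.bins H (range (verts B J J))).card := by
  have hO := obj_all P hB J J le_rfl
  rw [Nat.sub_self] at hO
  obtain ⟨H, S, Bl, h⟩ := hO 0 (fun _ => ∅) (fun _ => ∅) (fun q _ => Finset.empty_subset _)
  have hq : ∀ l, ∃ q, Pos (fun l => 3 * (slots B (J - (l + 1)) * B * B)) l q := by
    intro l
    induction l with
    | zero => exact ⟨[], rfl⟩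
    | succ l ih =>
      obtain ⟨q, hq⟩ := ih
      refine ⟨0 :: q, pos_cons.2 ⟨?_, hq⟩⟩
      have : 1 ≤ slots B (J - (l + 1)) * B * B :=
        Nat.mul_pos (Nat.mul_pos (one_le_slots B _) hB) hB
      omega
  refine ⟨H, ?_, ?_⟩
  · obtain ⟨e, he⟩ := exists_ne' (0 : Fin 3)
    obtain ⟨κ, _, _, χ, _, hχ⟩ := h.colour 0 (fun _ => dflt e)
      (fun _ _ => ⟨dflt_valid e, by rw [dflt_root]; exact he⟩)
    refine ⟨χ, fun x hx y hy hyx => ?_⟩
    rcases hχ x (Nat.zero_le _) (by omega) y hy hyx with h1 | ⟨q, _, hyq, _⟩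
    · exact h1.2
    · exact absurd hyq (Finset.notMem_empty _)
  · by_contra hle
    rw [not_lt] at hle
    have hz : 0 + verts B J J = verts B J J := Nat.zero_add _
    have h1 := h.size (by rw [hz]; exact hle)
    obtain ⟨q, hq⟩ := hq J
    have h2 := h.bins 0 (by simp [slots]) q hq
    have h3 : Bl 0 q ⊆ range (verts B J J) := by
      refine (h.sub 0 (by simp [slots]) q hq).trans fun y hy => ?_
      rw [Finset.mem_Ico] at hy
      rw [Finset.mem_range]
      omega
    have h4 := Finset.card_le_card (h2.trans (P.bins_mono H h3))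
    omega

end Pool.Agent.H64.OC
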