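import Pool.Agent.H64.OC.Defs
import Pool.Agent.H64.OC.Strategy

/-!
# On-line colouring of 3-colourable graphs: from histories to graphs
-/

set_option autoImplicit false

namespace Pool.Agent.H64.OC

open Finset

/-- The graph of a history. -/
def hg (H : Hist) (N : ℕ) : SimpleGraph (Fin N) where
  Adj a b := (a.val < b.val ∧ a.val ∈ H b.val) ∨ (b.val < a.val ∧ b.val ∈ H a.val)
  symm := ⟨fun a b h => h.symm⟩
  loopless := ⟨fun a h => by
    rcases h with h | h <;> exact absurd h.1 (lt_irrefl _)⟩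

theorem initial_hg (H : Hist) {N : ℕ} (i : Fin N) : initial (hg H N) i = hg H (i.val + 1) := by
  ext a b
  rfl

theorem hg_congr {H H' : Hist} {N : ℕ} (h : ∀ i < N, H' i = H i) : hg H' N = hg H N := by
  ext a b
  simp only [hg]
  rw [h a.val a.isLt, h b.val b.isLt]

/-- the history restricted to the vertices up to `i` -/
def cut (H : Hist) (i : ℕ) : Hist := fun x => if x ≤ i then H x else ∅

theorem cut_of_le {H : Hist} {i x : ℕ} (h : x ≤ i) : cut H i x = H x := by
  simp [cut, h]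

theorem cut_of_lt {H : Hist} {i x : ℕ} (h : i < x) : cut H i x = ∅ := by
  have : ¬ x ≤ i := by omega
  simp [cut, this]

/-- the graph of the history up to `i` is 3-colourable -/
def Col3 (H : Hist) (i : ℕ) : Prop :=
  ∃ χ : ℕ → Fin 3, ∀ x ≤ i, ∀ y ∈ H x, y < x → χ y ≠ χ x

theorem Col3.mono {H : Hist} {i j : ℕ} (h : Col3 H i) (hj : j ≤ i) : Col3 H j := by
  obtain ⟨χ, hχ⟩ := h
  exact ⟨χ, fun x hx => hχ x (by omega)⟩

theorem Col3.congr {H H' : Hist} {i : ℕ} (h : ∀ x ≤ i, H' x = H x) : Col3 H' i ↔ Col3 H i := by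
  unfold Col3
  constructor
  · rintro ⟨χ, hχ⟩
    exact ⟨χ, fun x hx y hy => hχ x hx y (by rw [h x hx]; exact hy)⟩
  · rintro ⟨χ, hχ⟩
    exact ⟨χ, fun x hx y hy => hχ x hx y (by rw [← h x hx]; exact hy)⟩

theorem colorable_cut {H : Hist} {i : ℕ} (h : Col3 H i) (n : ℕ) :
    (hg (cut H i) n).Colorable 3 := by
  obtain ⟨χ, hχ⟩ := h
  refine ⟨SimpleGraph.Coloring.mk (fun a : Fin n => χ a.val) ?_⟩
  have key : ∀ a b : ℕ, a < b → a ∈ cut H i b → χ a ≠ χ b := by
    intro a b hab hb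
    by_cases hbi : b ≤ i
    · rw [cut_of_le hbi] at hb
      exact hχ b hbi a hb hab
    · rw [cut_of_lt (by omega)] at hb
      exact absurd hb (Finset.notMem_empty _)
  intro a b hab
  rcases hab with h | h
  · exact key _ _ h.1 h.2
  · exact (key _ _ h.1 h.2).symm

open Classical in
/-- the Painter of an on-line algorithm that is proper on 3-colourable graphs with `n`
vertices -/
noncomputable def painter (A : OnlineAlg) (n : ℕ)
    (hA : ∀ G : SimpleGraph (Fin n), G.Colorable 3 → ∀ i j, G.Adj i j →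
      A.colour G i ≠ A.colour G j) : Painter where
  col i H := if i < n ∧ Col3 H i then 2 * A i (hg H (i + 1)) else 2 * i + 1
  loc i H H' h := by
    have h1 : Col3 H' i ↔ Col3 H i := Col3.congr h
    have h2 : hg H' (i + 1) = hg H (i + 1) := hg_congr fun x hx => h x (by omega)
    simp only [h1, h2]
  proper i H j hji hj := by
    by_cases h1 : i < n ∧ Col3 H i
    · have h2 : j < n ∧ Col3 H j := ⟨by omega, h1.2.mono (by omega)⟩
      simp only [h1, h2, and_self, if_true]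
      have h3 := hA (hg (cut H i) n) (colorable_cut h1.2 n) ⟨i, h1.1⟩ ⟨j, h2.1⟩
        (Or.inr ⟨hji, by
          show j ∈ cut H i i
          rw [cut_of_le le_rfl]; exact hj⟩)
      unfold OnlineAlg.colour at h3
      rw [initial_hg, initial_hg] at h3
      have e1 : hg (cut H i) (i + 1) = hg H (i + 1) :=
        hg_congr fun x hx => cut_of_le (by omega)
      have e2 : hg (cut H i) (j + 1) = hg H (j + 1) :=
        hg_congr fun x hx => cut_of_le (by omega)
      simp only [e1, e2] at h3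
      intro h
      exact h3 (by omega)
    · simp only [h1, if_false]
      by_cases h2 : j < n ∧ Col3 H j
      · simp only [h2, and_self, if_true]; omega
      · simp only [h2, if_false]; omega

/-- **Lower bound for algorithms.**  `verts B J J` vertices are enough. -/
theorem alg_lower {B J n : ℕ} (hB : 1 ≤ B) (hJ : B < sz J) (hn : verts B J J ≤ n)
    (A : OnlineAlg) (hA : ∀ G : SimpleGraph (Fin n), G.Colorable 3 → ∀ i j, G.Adj i j →
      A.colour G i ≠ A.colour G j) :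
    ∃ G : SimpleGraph (Fin n), G.Colorable 3 ∧ B < A.numColours G := by
  obtain ⟨H, ⟨χ, hχ⟩, hcard⟩ := strategy (painter A n hA) hB J hJ
  set N := verts B J J with hN
  have hN0 : 1 ≤ N := by
    by_contra h
    have : N = 0 := by omega
    rw [this] at hcard
    simp [Painter.bins] at hcard
  have hc : Col3 H (N - 1) := ⟨χ, fun x hx => hχ x (by omega)⟩
  refine ⟨hg (cut H (N - 1)) n, colorable_cut hc n, ?_⟩
  have hsub : (painter A n hA).bins H (range N) ⊆
      (univ.image (A.colour (hg (cut H (N - 1)) n))).image (fun t => 2 * t) := by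
    intro b hb
    unfold Painter.bins at hb
    rw [mem_image] at hb
    obtain ⟨i, hi, rfl⟩ := hb
    rw [mem_range] at hi
    have hin : i < n := by omega
    have h1 : i < n ∧ Col3 H i := ⟨hin, hc.mono (by omega)⟩
    rw [mem_image]
    refine ⟨A.colour (hg (cut H (N - 1)) n) ⟨i, hin⟩, mem_image_of_mem _ (mem_univ _), ?_⟩
    unfold OnlineAlg.colour
    rw [initial_hg]
    have e1 : hg (cut H (N - 1)) (i + 1) = hg H (i + 1) :=
      hg_congr fun x hx => cut_of_le (by omega)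
    simp only [painter, h1, and_self, if_true, e1]
  calc B < ((painter A n hA).bins H (range N)).card := hcard
    _ ≤ _ := Finset.card_le_card hsub
    _ ≤ (univ.image (A.colour (hg (cut H (N - 1)) n))).card := Finset.card_image_le

theorem sz_pow (m : ℕ) : 2 ^ m < sz (2 * m + 1) := by
  have h1 := sz_ge (2 * m + 1)
  by_contra hle
  rw [not_lt] at hle
  have h2 : 3 ^ (2 * m + 1) ≤ 2 ^ m * 2 ^ (2 * m + 1) :=
    h1.trans (Nat.mul_le_mul_right _ hle)
  have h3 : 2 ^ m * 2 ^ (2 * m + 1) = 2 * 8 ^ m := by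
    rw [show (8 : ℕ) = 2 ^ 3 by norm_num, ← pow_mul, ← pow_add, ← pow_succ']
    congr 1
    ring
  have h4 : 3 ^ (2 * m + 1) = 3 * 9 ^ m := by
    rw [show (9 : ℕ) = 3 ^ 2 by norm_num, ← pow_mul, ← pow_succ']
  have h5 : 8 ^ m ≤ 9 ^ m := Nat.pow_le_pow_left (by norm_num) m
  have h6 : 1 ≤ 9 ^ m := Nat.one_le_pow _ _ (by norm_num)
  rw [h3, h4] at h2
  omega

theorem verts_pow (m : ℕ) : verts (2 ^ m) (2 * m + 1) (2 * m + 1) ≤ 2 ^ (8 * (m + 1) ^ 3) := by
  refine (verts_le (Nat.one_le_two_pow) _ _).trans (le_of_eq ?_)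
  have h1 : 4 * (2 ^ m) ^ 2 = 2 ^ (2 * m + 2) := by
    rw [← pow_mul, show (4 : ℕ) = 2 ^ 2 by norm_num, ← pow_add]
    congr 1
    ring
  rw [h1, ← pow_mul]
  congr 1
  ring

/-- **Main theorem, for algorithms**: for `n ≥ 2^{8(m+1)^3}`, every on-line algorithm that is
proper on the 3-colourable graphs with `n` vertices uses more than `2^m` colours on one of
them. -/
theorem alg_main {m n : ℕ} (hn : 2 ^ (8 * (m + 1) ^ 3) ≤ n)
    (A : OnlineAlg) (hA : ∀ G : SimpleGraph (Fin n), G.Colorable 3 → ∀ i j, G.Adj i j →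
      A.colour G i ≠ A.colour G j) :
    ∃ G : SimpleGraph (Fin n), G.Colorable 3 ∧ 2 ^ m < A.numColours G :=
  alg_lower Nat.one_le_two_pow (sz_pow m) ((verts_pow m).trans hn) A hA

theorem phi_set_nonempty (k n : ℕ) : {t : ℕ | ∃ A : OnlineAlg, A.Proper ∧
    ∀ G : SimpleGraph (Fin n), G.Colorable k → A.numColours G ≤ t}.Nonempty := by
  refine ⟨n, fun s _ => s, ?_, ?_⟩
  · intro n G i j hij h
    unfold OnlineAlg.colour at h
    exact hij.ne (Fin.ext h)
  · intro G _
    unfold OnlineAlg.numColours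
    exact Finset.card_image_le.trans (by simp)

theorem phi_main {k m n : ℕ} (hk : 3 ≤ k) (hn : 2 ^ (8 * (m + 1) ^ 3) ≤ n) :
    2 ^ m < phi k n := by
  obtain ⟨A, hA, hle⟩ := Nat.sInf_mem (phi_set_nonempty k n)
  obtain ⟨G, hG, hlt⟩ := alg_main hn A (fun G _ i j hij => hA n G i j hij)
  exact hlt.trans_le (hle G (hG.mono hk))

theorem one_le_phi {k n : ℕ} (hn : 1 ≤ n) : 1 ≤ phi k n ∨ k = 0 := by
  rcases Nat.eq_zero_or_pos k with hk | hk
  · exact Or.inr hk
  · left
    obtain ⟨A, hA, hle⟩ := Nat.sInf_mem (phi_set_nonempty k n)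
    have h1 : (⊥ : SimpleGraph (Fin n)).Colorable k := by
      refine ⟨SimpleGraph.Coloring.mk (fun _ => ⟨0, hk⟩) ?_⟩
      intro a b hab
      exact absurd hab (by simp)
    refine le_trans ?_ (hle ⊥ h1)
    unfold OnlineAlg.numColours
    rw [Nat.one_le_iff_ne_zero, ← Nat.pos_iff_ne_zero, Finset.card_pos]
    exact ⟨_, mem_image_of_mem _ (mem_univ (⟨0, hn⟩ : Fin n))⟩

/-- **Main theorem**: `φ(k, n) ≥ (1/4) 2^{(log₂ n)^{1/3} / 2}` for all `k ≥ 3`, `n ≥ 1`. -/
theorem phi_lower {k n : ℕ} (hk : 3 ≤ k) (hn : 1 ≤ n) :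
    (1 / 4 : ℝ) * 2 ^ ((Real.logb 2 n) ^ (1 / 3 : ℝ) / 2) ≤ (phi k n : ℝ) := by
  have hn1 : (1 : ℝ) ≤ n := by exact_mod_cast hn
  set L := Real.logb 2 n with hL
  have hL0 : 0 ≤ L := Real.logb_nonneg (by norm_num) hn1
  set x := L ^ (1 / 3 : ℝ) / 2 with hx
  have hx0 : 0 ≤ x := by positivity
  have hx3 : 8 * x ^ 3 = L := by
    rw [hx, div_pow, ← Real.rpow_natCast (L ^ (1 / 3 : ℝ)) 3, ← Real.rpow_mul hL0]
    norm_num
    ring
  have hnL : (2 : ℝ) ^ L = n := Real.rpow_logb (by norm_num) (by norm_num) (by linarith)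
  rcases lt_or_ge x 1 with hx1 | hx1
  · have h1 : (1 : ℝ) ≤ (phi k n : ℝ) := by
      rcases one_le_phi (k := k) hn with h | h
      · exact_mod_cast h
      · omega
    have h2 : (2 : ℝ) ^ x ≤ 2 ^ (1 : ℝ) :=
      Real.rpow_le_rpow_of_exponent_le (by norm_num) hx1.le
    rw [Real.rpow_one] at h2
    linarith
  · obtain ⟨m, hm⟩ : ∃ m : ℕ, ⌊x⌋₊ = m + 1 :=
      ⟨⌊x⌋₊ - 1, by
        have : 1 ≤ ⌊x⌋₊ := Nat.le_floor (by exact_mod_cast hx1)
        omega⟩
    have hfl : ((m : ℝ) + 1) ≤ x := by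
      have := Nat.floor_le hx0
      rw [hm] at this
      exact_mod_cast this
    have hfu : x < (m : ℝ) + 2 := by
      have := Nat.lt_floor_add_one x
      rw [hm] at this
      push_cast at this
      linarith
    have hnm : 2 ^ (8 * (m + 1) ^ 3) ≤ n := by
      have h1 : ((8 * (m + 1) ^ 3 : ℕ) : ℝ) ≤ L := by
        rw [← hx3]
        push_cast
        have : ((m : ℝ) + 1) ^ 3 ≤ x ^ 3 := by
          have h0 : (0 : ℝ) ≤ (m : ℝ) + 1 := by positivity
          exact pow_le_pow_left₀ h0 hfl 3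
        linarith
      have h2 : (2 : ℝ) ^ ((8 * (m + 1) ^ 3 : ℕ) : ℝ) ≤ 2 ^ L :=
        Real.rpow_le_rpow_of_exponent_le (by norm_num) h1
      rw [hnL, Real.rpow_natCast] at h2
      exact_mod_cast h2
    have h3 := phi_main hk hnm
    have h4 : ((2 : ℝ) ^ m) ≤ (phi k n : ℝ) := by exact_mod_cast h3.le
    refine le_trans ?_ h4
    have h5 : (2 : ℝ) ^ x ≤ 2 ^ ((m : ℝ) + 2) :=
      Real.rpow_le_rpow_of_exponent_le (by norm_num) hfu.le
    have h6 : (2 : ℝ) ^ ((m : ℝ) + 2) = 2 ^ m * 4 := by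
      rw [Real.rpow_add (by norm_num), Real.rpow_natCast]
      norm_num
    rw [h6] at h5
    linarith

end Pool.Agent.H64.OC
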