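import Mathlib

/-!
# On-line colouring of 3-colourable graphs: the Presenter strategy, basic notions
-/

set_option autoImplicit false

namespace Pool.Agent.H64.OC

/-- A history: the vertices are `0, 1, 2, ...`, the vertex `i` is joined to the earlier
vertices `y < i` with `y ∈ H i`. -/
abbrev Hist := ℕ → Finset ℕ

/-- An on-line colouring algorithm on histories: the colour of vertex `n` depends only on the
history up to `n`, and is different from the colours of the earlier neighbours. -/
structure Painter where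
  col : ℕ → Hist → ℕ
  loc : ∀ (n : ℕ) (H H' : Hist), (∀ i ≤ n, H' i = H i) → col n H' = col n H
  proper : ∀ (n : ℕ) (H : Hist) (j : ℕ), j < n → j ∈ H n → col n H ≠ col j H

/-- the colours (bins) used on a set of vertices -/
def Painter.bins (P : Painter) (H : Hist) (Y : Finset ℕ) : Finset ℕ :=
  Y.image (fun i => P.col i H)

theorem Painter.bins_congr (P : Painter) {H H' : Hist} {n : ℕ} (h : ∀ i < n, H' i = H i)
    {Y : Finset ℕ} (hY : Y ⊆ Finset.range n) : P.bins H' Y = P.bins H Y := by
  unfold Painter.bins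
  refine Finset.image_congr fun i hi => ?_
  have hi' : i < n := Finset.mem_range.1 (hY hi)
  exact P.loc i H H' fun k hk => h k (lt_of_le_of_lt hk hi')

theorem Painter.bins_mono (P : Painter) (H : Hist) {Y Y' : Finset ℕ} (h : Y ⊆ Y') :
    P.bins H Y ⊆ P.bins H Y' := Finset.image_subset_image h

/-! ### patterns -/

/-- A colour pattern: a colour for every address in the tree of nested objects. -/
abbrev Pat := List ℕ → Fin 3

/-- nested objects have different colours -/
def Valid (κ : Pat) : Prop := ∀ (l : List ℕ) (i : ℕ), κ (l ++ [i]) ≠ κ l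

/-- a default pattern with given root colour -/
def dflt (c : Fin 3) : Pat := fun l => if Even l.length then c else c + 1

theorem dflt_root (c : Fin 3) : dflt c [] = c := by simp [dflt]

theorem fin3_add_one_ne (c : Fin 3) : c + 1 ≠ c := by
  revert c; decide

theorem dflt_valid (c : Fin 3) : Valid (dflt c) := by
  intro l i
  unfold dflt
  have hc := fin3_add_one_ne c
  rw [List.length_append, List.length_singleton]
  by_cases h : Even l.length
  · have h1 : ¬ Even (l.length + 1) := by
      rw [Nat.even_add_one]; exact not_not.2 h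
    rw [if_pos h, if_neg h1]; exact hc
  · have h1 : Even (l.length + 1) := by
      rw [Nat.even_add_one]; exact h
    rw [if_neg h, if_pos h1]; exact hc.symm

/-- the pattern of the `a`-th child -/
def child (κ : Pat) (a : ℕ) : Pat := fun l => κ (a :: l)

theorem child_valid {κ : Pat} (h : Valid κ) (a : ℕ) : Valid (child κ a) := by
  intro l i
  exact h (a :: l) i

theorem child_root {κ : Pat} (h : Valid κ) (a : ℕ) : child κ a [] ≠ κ [] := h [] a

/-- the pattern with given root and children -/
def node (c : Fin 3) (f : ℕ → Pat) : Pat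
  | [] => c
  | a :: l => f a l

theorem node_valid {c : Fin 3} {f : ℕ → Pat} (h : ∀ a, Valid (f a)) (h' : ∀ a, f a [] ≠ c) :
    Valid (node c f) := by
  intro l i
  cases l with
  | nil => exact h' i
  | cons a l => exact h a l i

/-- the third colour -/
theorem exists_third (c d : Fin 3) : ∃ e : Fin 3, e ≠ c ∧ e ≠ d := by
  revert c d; decide

theorem exists_ne' (c : Fin 3) : ∃ e : Fin 3, e ≠ c := ⟨c + 1, fin3_add_one_ne c⟩

/-! ### positions -/

/-- the positions at which an object of level `j` can be blocked; `w j` is the number of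
children of an object of level `j + 1` -/
def Pos (w : ℕ → ℕ) : ℕ → List ℕ → Prop
  | 0, q => q = []
  | (j + 1), q => ∃ a q', q = a :: q' ∧ a < w j ∧ Pos w j q'

theorem pos_cons {w : ℕ → ℕ} {j a : ℕ} {q : List ℕ} :
    Pos w (j + 1) (a :: q) ↔ a < w j ∧ Pos w j q := by
  constructor
  · rintro ⟨a', q', h, h1, h2⟩
    obtain ⟨rfl, rfl⟩ := List.cons.inj h
    exact ⟨h1, h2⟩
  · rintro ⟨h1, h2⟩
    exact ⟨a, q, rfl, h1, h2⟩

/-! ### objects -/

/-- An object of level `j` with `R` slots, built at the vertices `n, ..., n + N - 1`, with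
blockers `Z`, common set of bins `S`, and slots `Bl`. -/
structure IsObj (P : Painter) (w : ℕ → ℕ) (B j R N s n : ℕ) (H H' : Hist)
    (Z : List ℕ → Finset ℕ) (S : Finset ℕ) (Bl : ℕ → List ℕ → Finset ℕ) : Prop where
  agree : ∀ i < n, H' i = H i
  sub : ∀ σ < R, ∀ q, Pos w j q → Bl σ q ⊆ Finset.Ico n (n + N)
  bins : ∀ σ < R, ∀ q, Pos w j q → S ⊆ P.bins H' (Bl σ q)
  disj : ∀ T : Finset ℕ, (∀ q, Pos w j q → T ⊆ P.bins H' (Z q)) → Disjoint S T
  size : (P.bins H' (Finset.range (n + N))).card ≤ B → s ≤ S.card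
  colour : ∀ (c : Fin 3) (κs : ℕ → Pat), (∀ σ < R, Valid (κs σ) ∧ κs σ [] ≠ c) →
    ∃ κ : Pat, Valid κ ∧ κ [] = c ∧ ∃ χ : ℕ → Fin 3,
      (∀ σ < R, ∀ q, Pos w j q → ∀ y ∈ Bl σ q, χ y = κs σ q) ∧
      ∀ x, n ≤ x → x < n + N → ∀ y ∈ H' x, y < x →
        (n ≤ y ∧ χ y ≠ χ x) ∨ (∃ q, Pos w j q ∧ y ∈ Z q ∧ χ x ≠ κ q)

/-- the Presenter can build objects of level `j` -/
def Obj (P : Painter) (w : ℕ → ℕ) (B j R N s : ℕ) : Prop :=
  ∀ (n : ℕ) (H : Hist) (Z : List ℕ → Finset ℕ),
    (∀ q, Pos w j q → Z q ⊆ Finset.range n) →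
    ∃ (H' : Hist) (S : Finset ℕ) (Bl : ℕ → List ℕ → Finset ℕ),
      IsObj P w B j R N s n H H' Z S Bl

/-! ### level zero -/

theorem obj_zero (P : Painter) (w : ℕ → ℕ) (B R : ℕ) (hB0 : 1 ≤ B) (hR : 1 ≤ R) :
    Obj P w B 0 R (R * B) 1 := by
  classical
  intro n H Z hZ
  set H' : Hist := fun x => if n ≤ x then Z [] else H x with hH'
  have hag : ∀ i < n, H' i = H i := by
    intro i hi
    simp only [hH']
    rw [if_neg (by omega)]
  have hnew : ∀ x, n ≤ x → H' x = Z [] := by
    intro x hx
    simp only [hH']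
    rw [if_pos hx]
  have hZ0 : Z [] ⊆ Finset.range n := hZ [] rfl
  by_cases hB : (P.bins H' (Finset.range (n + R * B))).card ≤ B
  · -- pigeonhole
    set X := Finset.Ico n (n + R * B) with hX
    have hXc : X.card = R * B := by rw [hX, Nat.card_Ico]; omega
    have hmaps : ∀ x ∈ X, P.col x H' ∈ P.bins H' (Finset.range (n + R * B)) := by
      intro x hx
      rw [hX, Finset.mem_Ico] at hx
      exact Finset.mem_image_of_mem _ (Finset.mem_range.2 hx.2)
    have hne : (P.bins H' (Finset.range (n + R * B))).Nonempty := by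
      have h1 : X.Nonempty := by
        rw [← Finset.card_pos, hXc]
        exact Nat.mul_pos hR hB0
      obtain ⟨x, hx⟩ := h1
      exact ⟨_, hmaps x hx⟩
    obtain ⟨b, hb, hbc⟩ := Finset.exists_le_card_fiber_of_mul_le_card_of_maps_to
      (n := R) hmaps hne (by
        rw [hXc, mul_comm]
        exact Nat.mul_le_mul_left R hB)
    obtain ⟨Y, hYs, hYc⟩ := Finset.exists_subset_card_eq hbc
    have hYX : ∀ y ∈ Y, n ≤ y ∧ y < n + R * B ∧ P.col y H' = b := by
      intro y hy
      have h1 := hYs hy
      rw [Finset.mem_filter, hX, Finset.mem_Ico] at h1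
      exact ⟨h1.1.1, h1.1.2, h1.2⟩
    -- enumeration of `Y`
    have e : Fin R ≃ Y := (Fintype.equivFinOfCardEq (by simpa using hYc)).symm
    refine ⟨H', {b}, fun σ _ => if h : σ < R then {((e ⟨σ, h⟩ : Y) : ℕ)} else ∅, ?_⟩
    refine ⟨hag, ?_, ?_, ?_, ?_, ?_⟩
    · intro σ hσ q _
      simp only [hσ, dif_pos]
      rw [Finset.singleton_subset_iff, Finset.mem_Ico]
      have := hYX _ (e ⟨σ, hσ⟩).2
      exact ⟨this.1, this.2.1⟩
    · intro σ hσ q _
      simp only [hσ, dif_pos]
      rw [Finset.singleton_subset_iff]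
      unfold Painter.bins
      rw [Finset.image_singleton, Finset.mem_singleton]
      exact (hYX _ (e ⟨σ, hσ⟩).2).2.2.symm
    · intro T hT
      rw [Finset.disjoint_singleton_left]
      intro hbT
      have h1 := hT [] rfl hbT
      unfold Painter.bins at h1
      rw [Finset.mem_image] at h1
      obtain ⟨z, hz, hzb⟩ := h1
      have hy := hYX _ (e ⟨0, hR⟩).2
      set y : ℕ := ((e ⟨0, hR⟩ : Y) : ℕ) with hyd
      have hzn : z < n := Finset.mem_range.1 (hZ0 hz)
      have hzy : z ∈ H' y := by rw [hnew y hy.1]; exact hz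
      have := P.proper y H' z (by omega) hzy
      rw [hy.2.2, hzb] at this
      exact this rfl
    · intro _
      simp
    · intro c κs hκ
      obtain ⟨c', hc'⟩ := exists_ne' c
      refine ⟨dflt c, dflt_valid c, dflt_root c,
        fun y => if h : y ∈ Y then κs (e.symm ⟨y, h⟩) [] else c', ?_, ?_⟩
      · intro σ hσ q hq y hy
        simp only [hσ, dif_pos] at hy
        rw [Finset.mem_singleton] at hy
        have hyY : y ∈ Y := by rw [hy]; exact (e ⟨σ, hσ⟩).2
        simp only [hyY, dif_pos]
        have h2 : (⟨y, hyY⟩ : Y) = e ⟨σ, hσ⟩ := Subtype.ext hy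
        rw [h2, Equiv.symm_apply_apply]
        have hq' : q = [] := hq
        rw [hq']
      · intro x hx1 hx2 y hy _
        right
        rw [hnew x hx1] at hy
        refine ⟨[], rfl, hy, ?_⟩
        rw [dflt_root]
        by_cases hxY : x ∈ Y
        · simp only [hxY, dif_pos]
          exact (hκ _ (e.symm ⟨x, hxY⟩).2).2
        · simp only [hxY, dif_neg, not_false_eq_true]
          exact hc'
  · refine ⟨H', ∅, fun _ _ => ∅, hag, ?_, ?_, ?_, ?_, ?_⟩
    · intro σ _ q _; simp
    · intro σ _ q _; simp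
    · intro T _; simp
    · intro h; exact absurd h hB
    · intro c κs _
      obtain ⟨c', hc'⟩ := exists_ne' c
      refine ⟨dflt c, dflt_valid c, dflt_root c, fun _ => c', ?_, ?_⟩
      · intro σ _ q _ y hy; simp at hy
      · intro x hx1 hx2 y hy _
        right
        rw [hnew x hx1] at hy
        refine ⟨[], rfl, hy, ?_⟩
        rw [dflt_root]
        exact hc'

end Pool.Agent.H64.OC
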