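import Pool.Agent.H64.OC.Core

/-!
# On-line colouring of 3-colourable graphs: gadgets

A gadget consists of three objects `u₁, u₂, y` of level `j`, with `y` attached to the last slot
of `u₁`.
-/

set_option autoImplicit false

namespace Pool.Agent.H64.OC

/-- A gadget of three objects of level `j`, with `R` slots. -/
structure IsGad (P : Painter) (w : ℕ → ℕ) (B j R N s n : ℕ) (H H' : Hist)
    (Z : ℕ → List ℕ → Finset ℕ) (T : Finset ℕ) (G : ℕ → List ℕ → Finset ℕ) : Prop where
  agree : ∀ i < n, H' i = H i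
  sub : ∀ a < R, ∀ q, Pos w j q → G a q ⊆ Finset.Ico n (n + N)
  bins : ∀ a < R, ∀ q, Pos w j q → T ⊆ P.bins H' (G a q)
  disj : ∀ T0 : Finset ℕ, (∀ b < 3, ∀ q, Pos w j q → T0 ⊆ P.bins H' (Z b q)) → Disjoint T T0
  size : (P.bins H' (Finset.range (n + N))).card ≤ B → s ≤ T.card
  colour : ∀ (c d : Fin 3), d ≠ c → ∀ (κs : ℕ → Pat), (∀ a < R, Valid (κs a) ∧ κs a [] ≠ d) →
    ∃ κ : ℕ → Pat, (∀ b < 3, Valid (κ b) ∧ κ b [] ≠ c) ∧ ∃ χ : ℕ → Fin 3,
      (∀ a < R, ∀ q, Pos w j q → ∀ y ∈ G a q, χ y = κs a q) ∧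
      ∀ x, n ≤ x → x < n + N → ∀ y ∈ H' x, y < x →
        (n ≤ y ∧ χ y ≠ χ x) ∨ (∃ b < 3, ∃ q, Pos w j q ∧ y ∈ Z b q ∧ χ x ≠ κ b q)

/-- colourings of three objects in a row, the third one attached to the last slot of the first -/
theorem three_colour {P : Painter} {w : ℕ → ℕ} {B j R N s n : ℕ} {H H1 H2 H3 : Hist}
    {Z : ℕ → List ℕ → Finset ℕ} {S1 S2 S3 : Finset ℕ} {Bl1 Bl2 Bl3 : ℕ → List ℕ → Finset ℕ}
    (h1 : IsObj P w B j (R + 1) N s n H H1 (Z 0) S1 Bl1)
    (h2 : IsObj P w B j (R + 1) N s (n + N) H1 H2 (Z 1) S2 Bl2)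
    (h3 : IsObj P w B j (R + 1) N s (n + N + N) H2 H3 (fun q => Z 2 q ∪ Bl1 R q) S3 Bl3)
    (c1 c2 c3 : Fin 3) (h13 : c3 ≠ c1) (κs1 κs2 κs3 : ℕ → Pat)
    (k1 : ∀ a < R, Valid (κs1 a) ∧ κs1 a [] ≠ c1)
    (k2 : ∀ a < R, Valid (κs2 a) ∧ κs2 a [] ≠ c2)
    (k3 : ∀ a < R, Valid (κs3 a) ∧ κs3 a [] ≠ c3) :
    ∃ κ : ℕ → Pat, (∀ b < 3, Valid (κ b)) ∧ κ 0 [] = c1 ∧ κ 1 [] = c2 ∧ κ 2 [] = c3 ∧
      ∃ χ : ℕ → Fin 3,
      (∀ a < R, ∀ q, Pos w j q → ∀ y ∈ Bl1 a q, χ y = κs1 a q) ∧
      (∀ a < R, ∀ q, Pos w j q → ∀ y ∈ Bl2 a q, χ y = κs2 a q) ∧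
      (∀ a < R, ∀ q, Pos w j q → ∀ y ∈ Bl3 a q, χ y = κs3 a q) ∧
      ∀ x, n ≤ x → x < n + (N + N + N) → ∀ y ∈ H3 x, y < x →
        (n ≤ y ∧ χ y ≠ χ x) ∨ (∃ b < 3, ∃ q, Pos w j q ∧ y ∈ Z b q ∧ χ x ≠ κ b q) := by
  obtain ⟨e2, he2⟩ := exists_ne' c2
  obtain ⟨e3, he3⟩ := exists_ne' c3
  obtain ⟨κ3, v3, r3, χ3, d3, p3⟩ := h3.colour c3 (fun a => if a < R then κs3 a else dflt e3)
    (by
      intro σ _
      by_cases hσ : σ < R
      · simp only [hσ, if_true]; exact k3 σ hσ
      · simp only [hσ, if_false]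
        exact ⟨dflt_valid e3, by rw [dflt_root]; exact he3⟩)
  obtain ⟨κ2, v2, r2, χ2, d2, p2⟩ := h2.colour c2 (fun a => if a < R then κs2 a else dflt e2)
    (by
      intro σ _
      by_cases hσ : σ < R
      · simp only [hσ, if_true]; exact k2 σ hσ
      · simp only [hσ, if_false]
        exact ⟨dflt_valid e2, by rw [dflt_root]; exact he2⟩)
  obtain ⟨κ1, v1, r1, χ1, d1, p1⟩ := h1.colour c1 (fun a => if a < R then κs1 a else κ3)
    (by
      intro σ _
      by_cases hσ : σ < R
      · simp only [hσ, if_true]; exact k1 σ hσ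
      · simp only [hσ, if_false]
        exact ⟨v3, by rw [r3]; exact h13⟩)
  have hb1 : ∀ a < R + 1, ∀ q, Pos w j q → ∀ y ∈ Bl1 a q, n ≤ y ∧ y < n + N := by
    intro a ha q hq y hy
    exact Finset.mem_Ico.1 (h1.sub a ha q hq hy)
  have hb2 : ∀ a < R + 1, ∀ q, Pos w j q → ∀ y ∈ Bl2 a q, n + N ≤ y ∧ y < n + N + N := by
    intro a ha q hq y hy
    exact Finset.mem_Ico.1 (h2.sub a ha q hq hy)
  have hb3 : ∀ a < R + 1, ∀ q, Pos w j q → ∀ y ∈ Bl3 a q, n + N + N ≤ y ∧ y < n + N + N + N := by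
    intro a ha q hq y hy
    exact Finset.mem_Ico.1 (h3.sub a ha q hq hy)
  refine ⟨fun b => if b = 0 then κ1 else if b = 1 then κ2 else κ3, ?_, ?_, ?_, ?_,
    fun y => if y < n + N then χ1 y else if y < n + N + N then χ2 y else χ3 y, ?_, ?_, ?_, ?_⟩
  · intro b hb
    interval_cases b
    · simpa using v1
    · simpa using v2
    · simpa using v3
  · simpa using r1
  · simpa using r2
  · simpa using r3
  · intro a ha q hq y hy
    have := hb1 a (by omega) q hq y hy
    simp only [this.2, if_true]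
    rw [d1 a (by omega) q hq y hy]
    simp only [ha, if_true]
  · intro a ha q hq y hy
    have := hb2 a (by omega) q hq y hy
    have h' : ¬ y < n + N := by omega
    simp only [h', this.2, if_true, if_false]
    rw [d2 a (by omega) q hq y hy]
    simp only [ha, if_true]
  · intro a ha q hq y hy
    have := hb3 a (by omega) q hq y hy
    have h' : ¬ y < n + N := by omega
    have h'' : ¬ y < n + N + N := by omega
    simp only [h', h'', if_false]
    rw [d3 a (by omega) q hq y hy]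
    simp only [ha, if_true]
  · intro x hx1 hx2 y hy hyx
    by_cases hxa : x < n + N
    · have hH : H3 x = H1 x := by
        rw [h3.agree x (by omega), h2.agree x (by omega)]
      rw [hH] at hy
      have hya : y < n + N := by omega
      simp only [hxa, hya, if_true]
      rcases p1 x hx1 hxa y hy hyx with h | ⟨q, hq, hyq, hne⟩
      · exact Or.inl h
      · exact Or.inr ⟨0, by omega, q, hq, hyq, by simpa using hne⟩
    · by_cases hxb : x < n + N + N
      · have hH : H3 x = H2 x := h3.agree x (by omega)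
        rw [hH] at hy
        simp only [hxa, hxb, if_true, if_false]
        rcases p2 x (by omega) hxb y hy hyx with h | ⟨q, hq, hyq, hne⟩
        · left
          have h' : ¬ y < n + N := by omega
          have h'' : y < n + N + N := by omega
          refine ⟨by omega, ?_⟩
          simp only [h', h'', if_true, if_false]
          exact h.2
        · exact Or.inr ⟨1, by omega, q, hq, hyq, by simpa using hne⟩
      · simp only [hxa, hxb, if_false]
        rcases p3 x (by omega) (by omega) y hy hyx with h | ⟨q, hq, hyq, hne⟩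
        · left
          have h' : ¬ y < n + N := by omega
          have h'' : ¬ y < n + N + N := by omega
          refine ⟨by omega, ?_⟩
          simp only [h', h'', if_false]
          exact h.2
        · rcases Finset.mem_union.1 hyq with hyq | hyq
          · exact Or.inr ⟨2, by omega, q, hq, hyq, by simpa using hne⟩
          · left
            have hyb := hb1 R (by omega) q hq y hyq
            refine ⟨hyb.1, ?_⟩
            simp only [hyb.2, if_true]
            rw [d1 R (by omega) q hq y hyq]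
            simp only [lt_irrefl, if_false]
            exact hne.symm

theorem card_gadget {S1 S2 S3 : Finset ℕ} {s : ℕ} (h1 : s ≤ S1.card) (h2 : s ≤ S2.card)
    (h3 : s ≤ S3.card) (h : Disjoint S3 S1) :
    3 * s ≤ (S1 ∪ S2).card + (S3 ∪ S2).card := by
  have e1 : ((S1 ∪ S2) ∪ (S3 ∪ S2)).card + ((S1 ∪ S2) ∩ (S3 ∪ S2)).card
      = (S1 ∪ S2).card + (S3 ∪ S2).card := Finset.card_union_add_card_inter _ _
  have e2 : S2.card ≤ ((S1 ∪ S2) ∩ (S3 ∪ S2)).card :=
    Finset.card_le_card (Finset.subset_inter Finset.subset_union_right Finset.subset_union_right)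
  have e3 : (S3 ∪ S1).card ≤ ((S1 ∪ S2) ∪ (S3 ∪ S2)).card := by
    refine Finset.card_le_card (Finset.union_subset ?_ ?_)
    · exact Finset.subset_union_left.trans Finset.subset_union_right
    · exact Finset.subset_union_left.trans Finset.subset_union_left
  have e4 : (S3 ∪ S1).card = S3.card + S1.card := Finset.card_union_of_disjoint h
  omega

theorem gad_of_obj {P : Painter} {w : ℕ → ℕ} {B j R N s : ℕ} (hO : Obj P w B j (R + 1) N s)
    (n : ℕ) (H : Hist) (Z : ℕ → List ℕ → Finset ℕ)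
    (hZ : ∀ b < 3, ∀ q, Pos w j q → Z b q ⊆ Finset.range n) :
    ∃ (H' : Hist) (T : Finset ℕ) (G : ℕ → List ℕ → Finset ℕ),
      IsGad P w B j R (N + N + N) ((3 * s + 1) / 2) n H H' Z T G := by
  obtain ⟨H1, S1, Bl1, h1⟩ := hO n H (Z 0) (hZ 0 (by omega))
  obtain ⟨H2, S2, Bl2, h2⟩ := hO (n + N) H1 (Z 1) (fun q hq =>
    (hZ 1 (by omega) q hq).trans (Finset.range_subset_range.2 (by omega)))
  obtain ⟨H3, S3, Bl3, h3⟩ := hO (n + N + N) H2 (fun q => Z 2 q ∪ Bl1 R q) (fun q hq => by
    refine Finset.union_subset ?_ ?_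
    · exact (hZ 2 (by omega) q hq).trans (Finset.range_subset_range.2 (by omega))
    · refine (h1.sub R (by omega) q hq).trans fun y hy => ?_
      rw [Finset.mem_Ico] at hy
      rw [Finset.mem_range]
      omega)
  -- agreement of histories
  have a21 : ∀ i < n + N, H3 i = H1 i := fun i hi => by
    rw [h3.agree i (by omega), h2.agree i hi]
  have a32 : ∀ i < n + N + N, H3 i = H2 i := fun i hi => h3.agree i hi
  have a10 : ∀ i < n, H3 i = H i := fun i hi => by
    rw [a21 i (by omega), h1.agree i hi]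
  have rn1 : ∀ Y : Finset ℕ, Y ⊆ Finset.range n → Y ⊆ Finset.range (n + N) := fun Y hY =>
    hY.trans (Finset.range_subset_range.2 (by omega))
  have rn2 : ∀ Y : Finset ℕ, Y ⊆ Finset.range n → Y ⊆ Finset.range (n + N + N) := fun Y hY =>
    hY.trans (Finset.range_subset_range.2 (by omega))
  have ico1 : Finset.Ico n (n + N) ⊆ Finset.range (n + N) := fun y hy => by
    rw [Finset.mem_Ico] at hy; rw [Finset.mem_range]; exact hy.2
  have ico2 : Finset.Ico (n + N) (n + N + N) ⊆ Finset.range (n + N + N) := fun y hy => by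
    rw [Finset.mem_Ico] at hy; rw [Finset.mem_range]; exact hy.2
  -- bins
  have b1 : ∀ a < R + 1, ∀ q, Pos w j q → S1 ⊆ P.bins H3 (Bl1 a q) := by
    intro a ha q hq
    rw [P.bins_congr a21 ((h1.sub a ha q hq).trans ico1)]
    exact h1.bins a ha q hq
  have b2 : ∀ a < R + 1, ∀ q, Pos w j q → S2 ⊆ P.bins H3 (Bl2 a q) := by
    intro a ha q hq
    rw [P.bins_congr a32 ((h2.sub a ha q hq).trans ico2)]
    exact h2.bins a ha q hq
  have b3 : ∀ a < R + 1, ∀ q, Pos w j q → S3 ⊆ P.bins H3 (Bl3 a q) := h3.bins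
  -- disjointness
  have d1 : ∀ T0 : Finset ℕ, (∀ q, Pos w j q → T0 ⊆ P.bins H3 (Z 0 q)) → Disjoint S1 T0 := by
    intro T0 hT
    refine h1.disj T0 fun q hq => ?_
    rw [← P.bins_congr a21 (rn1 _ (hZ 0 (by omega) q hq))]
    exact hT q hq
  have d2 : ∀ T0 : Finset ℕ, (∀ q, Pos w j q → T0 ⊆ P.bins H3 (Z 1 q)) → Disjoint S2 T0 := by
    intro T0 hT
    refine h2.disj T0 fun q hq => ?_
    rw [← P.bins_congr a32 (rn2 _ (hZ 1 (by omega) q hq))]
    exact hT q hq
  have d3 : ∀ T0 : Finset ℕ, (∀ q, Pos w j q → T0 ⊆ P.bins H3 (Z 2 q)) → Disjoint S3 T0 := by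
    intro T0 hT
    refine h3.disj T0 fun q hq => ?_
    exact (hT q hq).trans (P.bins_mono H3 Finset.subset_union_left)
  have d31 : Disjoint S3 S1 := by
    refine h3.disj S1 fun q hq => ?_
    exact (b1 R (by omega) q hq).trans (P.bins_mono H3 Finset.subset_union_right)
  -- sizes
  have hsz : (P.bins H3 (Finset.range (n + (N + N + N)))).card ≤ B →
      s ≤ S1.card ∧ s ≤ S2.card ∧ s ≤ S3.card := by
    intro hB
    refine ⟨h1.size ?_, h2.size ?_, h3.size ?_⟩
    · rw [← P.bins_congr a21 (Finset.Subset.refl _)]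
      exact (Finset.card_le_card (P.bins_mono H3 (Finset.range_subset_range.2 (by omega)))).trans hB
    · rw [← P.bins_congr a32 (Finset.Subset.refl _)]
      exact (Finset.card_le_card (P.bins_mono H3 (Finset.range_subset_range.2 (by omega)))).trans hB
    · have : n + N + N + N = n + (N + N + N) := by omega
      rw [this]
      exact hB
  have hsub1 : ∀ a < R, ∀ q, Pos w j q → Bl1 a q ⊆ Finset.Ico n (n + (N + N + N)) := by
    intro a ha q hq y hy
    have := Finset.mem_Ico.1 (h1.sub a (by omega) q hq hy)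
    rw [Finset.mem_Ico]; omega
  have hsub2 : ∀ a < R, ∀ q, Pos w j q → Bl2 a q ⊆ Finset.Ico n (n + (N + N + N)) := by
    intro a ha q hq y hy
    have := Finset.mem_Ico.1 (h2.sub a (by omega) q hq hy)
    rw [Finset.mem_Ico]; omega
  have hsub3 : ∀ a < R, ∀ q, Pos w j q → Bl3 a q ⊆ Finset.Ico n (n + (N + N + N)) := by
    intro a ha q hq y hy
    have := Finset.mem_Ico.1 (h3.sub a (by omega) q hq hy)
    rw [Finset.mem_Ico]; omega
  by_cases htype : (S3 ∪ S2).card ≤ (S1 ∪ S2).card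
  · -- type I: `A = {u₁, u₂}`
    refine ⟨H3, S1 ∪ S2, fun a q => Bl1 a q ∪ Bl2 a q, a10, ?_, ?_, ?_, ?_, ?_⟩
    · intro a ha q hq
      exact Finset.union_subset (hsub1 a ha q hq) (hsub2 a ha q hq)
    · intro a ha q hq
      refine Finset.union_subset ?_ ?_
      · exact (b1 a (by omega) q hq).trans (P.bins_mono H3 Finset.subset_union_left)
      · exact (b2 a (by omega) q hq).trans (P.bins_mono H3 Finset.subset_union_right)
    · intro T0 hT
      rw [Finset.disjoint_union_left]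
      exact ⟨d1 T0 (hT 0 (by omega)), d2 T0 (hT 1 (by omega))⟩
    · intro hB
      obtain ⟨s1, s2, s3⟩ := hsz hB
      have := card_gadget s1 s2 s3 d31
      omega
    · intro c d hdc κs hκ
      obtain ⟨e, hec, hed⟩ := exists_third c d
      obtain ⟨κ, hv, r0, r1, r2, χ, q1, q2, _, q4⟩ := three_colour h1 h2 h3 d d e hed κs κs
        (fun _ => dflt d) hκ hκ (fun a _ => ⟨dflt_valid d, by rw [dflt_root]; exact hed.symm⟩)
      refine ⟨κ, ?_, χ, ?_, q4⟩
      · intro b hb
        refine ⟨hv b hb, ?_⟩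
        interval_cases b
        · rw [r0]; exact hdc
        · rw [r1]; exact hdc
        · rw [r2]; exact hec
      · intro a ha q hq y hy
        rcases Finset.mem_union.1 hy with hy | hy
        · exact q1 a ha q hq y hy
        · exact q2 a ha q hq y hy
  · -- type II: `A = {y, u₂}`
    refine ⟨H3, S3 ∪ S2, fun a q => Bl3 a q ∪ Bl2 a q, a10, ?_, ?_, ?_, ?_, ?_⟩
    · intro a ha q hq
      exact Finset.union_subset (hsub3 a ha q hq) (hsub2 a ha q hq)
    · intro a ha q hq
      refine Finset.union_subset ?_ ?_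
      · exact (b3 a (by omega) q hq).trans (P.bins_mono H3 Finset.subset_union_left)
      · exact (b2 a (by omega) q hq).trans (P.bins_mono H3 Finset.subset_union_right)
    · intro T0 hT
      rw [Finset.disjoint_union_left]
      exact ⟨d3 T0 (hT 2 (by omega)), d2 T0 (hT 1 (by omega))⟩
    · intro hB
      obtain ⟨s1, s2, s3⟩ := hsz hB
      have := card_gadget s1 s2 s3 d31
      omega
    · intro c d hdc κs hκ
      obtain ⟨e, hec, hed⟩ := exists_third c d
      obtain ⟨κ, hv, r0, r1, r2, χ, _, q2, q3, q4⟩ := three_colour h1 h2 h3 e d d hed.symm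
        (fun _ => dflt d) κs κs (fun a _ => ⟨dflt_valid d, by rw [dflt_root]; exact hed.symm⟩)
        hκ hκ
      refine ⟨κ, ?_, χ, ?_, q4⟩
      · intro b hb
        refine ⟨hv b hb, ?_⟩
        interval_cases b
        · rw [r0]; exact hec
        · rw [r1]; exact hdc
        · rw [r2]; exact hdc
      · intro a ha q hq y hy
        rcases Finset.mem_union.1 hy with hy | hy
        · exact q3 a ha q hq y hy
        · exact q2 a ha q hq y hy

end Pool.Agent.H64.OC
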