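import Pool.Agent.H64.OC.Gadget

/-!
# On-line colouring of 3-colourable graphs: rows of gadgets
-/

set_option autoImplicit false

namespace Pool.Agent.H64.OC

/-- `m` gadgets in a row; gadget `i` uses the children `3 i, 3 i + 1, 3 i + 2`. -/
structure IsRow (P : Painter) (w : ℕ → ℕ) (B j R N s m n : ℕ) (H H' : Hist)
    (Z : ℕ → List ℕ → Finset ℕ) (T : ℕ → Finset ℕ) (G : ℕ → ℕ → List ℕ → Finset ℕ) : Prop where
  agree : ∀ i < n, H' i = H i
  sub : ∀ i < m, ∀ a < R, ∀ q, Pos w j q → G i a q ⊆ Finset.Ico n (n + m * N)
  bins : ∀ i < m, ∀ a < R, ∀ q, Pos w j q → T i ⊆ P.bins H' (G i a q)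
  disj : ∀ T0 : Finset ℕ, (∀ b < 3 * m, ∀ q, Pos w j q → T0 ⊆ P.bins H' (Z b q)) →
    ∀ i < m, Disjoint (T i) T0
  size : (P.bins H' (Finset.range (n + m * N))).card ≤ B → ∀ i < m, s ≤ (T i).card
  tsub : ∀ i < m, 1 ≤ R → (∃ q, Pos w j q) → T i ⊆ P.bins H' (Finset.range (n + m * N))
  colour : ∀ (c : Fin 3) (d : ℕ → Fin 3), (∀ i < m, d i ≠ c) → ∀ (κs : ℕ → ℕ → Pat),
    (∀ i < m, ∀ a < R, Valid (κs i a) ∧ κs i a [] ≠ d i) →
    ∃ κ : ℕ → Pat, (∀ b < 3 * m, Valid (κ b) ∧ κ b [] ≠ c) ∧ ∃ χ : ℕ → Fin 3,
      (∀ i < m, ∀ a < R, ∀ q, Pos w j q → ∀ y ∈ G i a q, χ y = κs i a q) ∧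
      ∀ x, n ≤ x → x < n + m * N → ∀ y ∈ H' x, y < x →
        (n ≤ y ∧ χ y ≠ χ x) ∨ (∃ b < 3 * m, ∃ q, Pos w j q ∧ y ∈ Z b q ∧ χ x ≠ κ b q)

theorem row_of_gad {P : Painter} {w : ℕ → ℕ} {B j R N s : ℕ}
    (hG : ∀ (n : ℕ) (H : Hist) (Z : ℕ → List ℕ → Finset ℕ),
      (∀ b < 3, ∀ q, Pos w j q → Z b q ⊆ Finset.range n) →
      ∃ (H' : Hist) (T : Finset ℕ) (G : ℕ → List ℕ → Finset ℕ),
        IsGad P w B j R N s n H H' Z T G)
    (n : ℕ) (H : Hist) (Z : ℕ → List ℕ → Finset ℕ) (m : ℕ)
    (hZ : ∀ b < 3 * m, ∀ q, Pos w j q → Z b q ⊆ Finset.range n) :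
    ∃ (H' : Hist) (T : ℕ → Finset ℕ) (G : ℕ → ℕ → List ℕ → Finset ℕ),
      IsRow P w B j R N s m n H H' Z T G := by
  induction m with
  | zero =>
    refine ⟨H, fun _ => ∅, fun _ _ _ => ∅, fun _ _ => rfl, ?_, ?_, ?_, ?_, ?_, ?_⟩
    · intro i hi; omega
    · intro i hi; omega
    · intro T0 _ i hi; omega
    · intro _ i hi; omega
    · intro i hi; omega
    · intro c d _ κs _
      refine ⟨fun _ => dflt c, fun b hb => by omega, fun _ => c, fun i hi => by omega, ?_⟩
      intro x hx1 hx2
      omega
  | succ m ih =>
    obtain ⟨H1, T1, G1, h1⟩ := ih (fun b hb => hZ b (by omega))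
    obtain ⟨H2, T2, G2, h2⟩ := hG (n + m * N) H1 (fun b => Z (3 * m + b)) (fun b hb q hq =>
      (hZ (3 * m + b) (by omega) q hq).trans (Finset.range_subset_range.2 (by omega)))
    have hmN : (m + 1) * N = m * N + N := by ring
    have a21 : ∀ i < n + m * N, H2 i = H1 i := h2.agree
    have a20 : ∀ i < n, H2 i = H i := fun i hi => by
      rw [h2.agree i (by omega), h1.agree i hi]
    have ico1 : Finset.Ico n (n + m * N) ⊆ Finset.range (n + m * N) := fun y hy => by
      rw [Finset.mem_Ico] at hy; rw [Finset.mem_range]; exact hy.2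
    have mono1 : P.bins H2 (Finset.range (n + m * N)) ⊆
        P.bins H2 (Finset.range (n + (m + 1) * N)) :=
      P.bins_mono H2 (Finset.range_subset_range.2 (by rw [hmN]; omega))
    refine ⟨H2, fun i => if i < m then T1 i else T2, fun i => if i < m then G1 i else G2,
      a20, ?_, ?_, ?_, ?_, ?_, ?_⟩
    · intro i hi a ha q hq y hy
      rw [Finset.mem_Ico, hmN]
      by_cases him : i < m
      · simp only [him, if_true] at hy
        have := Finset.mem_Ico.1 (h1.sub i him a ha q hq hy)
        omega
      · simp only [him, if_false] at hy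
        have := Finset.mem_Ico.1 (h2.sub a ha q hq hy)
        omega
    · intro i hi a ha q hq
      by_cases him : i < m
      · simp only [him, if_true]
        rw [P.bins_congr a21 ((h1.sub i him a ha q hq).trans ico1)]
        exact h1.bins i him a ha q hq
      · simp only [him, if_false]
        exact h2.bins a ha q hq
    · intro T0 hT i hi
      by_cases him : i < m
      · simp only [him, if_true]
        refine h1.disj T0 (fun b hb q hq => ?_) i him
        rw [← P.bins_congr a21 ((hZ b (by omega) q hq).trans
          (Finset.range_subset_range.2 (by omega)))]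
        exact hT b (by omega) q hq
      · simp only [him, if_false]
        exact h2.disj T0 fun b hb q hq => hT (3 * m + b) (by omega) q hq
    · intro hB i hi
      have hB1 : (P.bins H1 (Finset.range (n + m * N))).card ≤ B := by
        rw [← P.bins_congr a21 (Finset.Subset.refl _)]
        exact (Finset.card_le_card mono1).trans hB
      by_cases him : i < m
      · simp only [him, if_true]
        exact h1.size hB1 i him
      · simp only [him, if_false]
        refine h2.size ?_
        have : n + m * N + N = n + (m + 1) * N := by rw [hmN]; omega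
        rw [this]
        exact hB
    · intro i hi hR hq
      by_cases him : i < m
      · simp only [him, if_true]
        refine (h1.tsub i him hR hq).trans ?_
        rw [← P.bins_congr a21 (Finset.Subset.refl _)]
        exact mono1
      · simp only [him, if_false]
        obtain ⟨q, hq⟩ := hq
        refine (h2.bins 0 (by omega) q hq).trans (P.bins_mono H2 ?_)
        refine (h2.sub 0 (by omega) q hq).trans fun y hy => ?_
        rw [Finset.mem_Ico] at hy
        rw [Finset.mem_range, hmN]
        omega
    · intro c d hd κs hκ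
      obtain ⟨κ1, hv1, χ1, p1, q1⟩ := h1.colour c d (fun i hi => hd i (by omega)) κs
        (fun i hi => hκ i (by omega))
      obtain ⟨κ2, hv2, χ2, p2, q2⟩ := h2.colour c (d m) (hd m (by omega)) (κs m)
        (hκ m (by omega))
      refine ⟨fun b => if b < 3 * m then κ1 b else κ2 (b - 3 * m), ?_,
        fun y => if y < n + m * N then χ1 y else χ2 y, ?_, ?_⟩
      · intro b hb
        by_cases hbm : b < 3 * m
        · simp only [hbm, if_true]; exact hv1 b hbm
        · simp only [hbm, if_false]; exact hv2 _ (by omega)
      · intro i hi a ha q hq y hy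
        by_cases him : i < m
        · simp only [him, if_true] at hy
          have := Finset.mem_Ico.1 (h1.sub i him a ha q hq hy)
          simp only [this.2, if_true]
          exact p1 i him a ha q hq y hy
        · simp only [him, if_false] at hy
          have := Finset.mem_Ico.1 (h2.sub a ha q hq hy)
          have h' : ¬ y < n + m * N := by omega
          simp only [h', if_false]
          have him' : i = m := by omega
          rw [him']
          exact p2 a ha q hq y hy
      · intro x hx1 hx2 y hy hyx
        by_cases hxa : x < n + m * N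
        · rw [a21 x hxa] at hy
          have hya : y < n + m * N := by omega
          simp only [hxa, hya, if_true]
          rcases q1 x hx1 hxa y hy hyx with h | ⟨b, hb, q, hq, hyq, hne⟩
          · exact Or.inl h
          · refine Or.inr ⟨b, by omega, q, hq, hyq, ?_⟩
            simp only [hb, if_true]
            exact hne
        · simp only [hxa, if_false]
          rcases q2 x (by omega) (by rw [hmN] at hx2; omega) y hy hyx with
            h | ⟨b, hb, q, hq, hyq, hne⟩
          · left
            have h' : ¬ y < n + m * N := by omega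
            refine ⟨by omega, ?_⟩
            simp only [h', if_false]
            exact h.2
          · refine Or.inr ⟨3 * m + b, by omega, q, hq, hyq, ?_⟩
            have h' : ¬ 3 * m + b < 3 * m := by omega
            simp only [h', if_false]
            have h'' : 3 * m + b - 3 * m = b := by omega
            rw [h'']
            exact hne

end Pool.Agent.H64.OC
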