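import Pool.Agent.H64.OC.Row

/-!
# On-line colouring of 3-colourable graphs: popular bins and the recursion step
-/

set_option autoImplicit false

namespace Pool.Agent.H64.OC

open Finset

/-- Popular bins, and disjoint batches of gadgets each of which covers all popular bins. -/
theorem popular {B R s : ℕ} (hB : 1 ≤ B) (hR : 1 ≤ R) (T : ℕ → Finset ℕ) (U : Finset ℕ)
    (hU : U.card ≤ B) (hT : ∀ i < R * B * B, T i ⊆ U) (hs : ∀ i < R * B * B, s ≤ (T i).card) :
    ∃ S : Finset ℕ, s ≤ S.card ∧ ∃ g : ℕ → ℕ → ℕ,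
      (∀ σ < R, ∀ b ∈ S, g σ b < R * B * B ∧ b ∈ T (g σ b)) ∧
      (∀ σ < R, ∀ σ' < R, ∀ b ∈ S, ∀ b' ∈ S, g σ b = g σ' b' → σ = σ') := by
  classical
  set M := R * B * B with hM
  have hM1 : 1 ≤ M := by
    rw [hM]
    exact Nat.mul_pos (Nat.mul_pos hR hB) hB
  set F : ℕ → Finset ℕ := fun b => (range M).filter (fun i => b ∈ T i) with hF
  set S := U.filter (fun b => M ≤ (F b).card * B) with hS
  have hsum : ∑ i ∈ range M, (T i).card = ∑ b ∈ U, (F b).card := by
    have h1 : ∀ i ∈ range M, (T i).card = ∑ b ∈ U, if b ∈ T i then 1 else 0 := by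
      intro i hi
      rw [Finset.card_eq_sum_ones, ← Finset.sum_filter]
      refine Finset.sum_congr ?_ fun _ _ => rfl
      ext b
      rw [mem_filter]
      exact ⟨fun h => ⟨hT i (mem_range.1 hi) h, h⟩, fun h => h.2⟩
    have h2 : ∀ b ∈ U, (F b).card = ∑ i ∈ range M, if b ∈ T i then 1 else 0 := by
      intro b _
      rw [Finset.card_eq_sum_ones, ← Finset.sum_filter]
    rw [Finset.sum_congr rfl h1, Finset.sum_congr rfl h2, Finset.sum_comm]
  have hlow : M * s ≤ ∑ i ∈ range M, (T i).card := by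
    have := Finset.card_nsmul_le_sum (range M) (fun i => (T i).card) s
      (fun i hi => hs i (mem_range.1 hi))
    simpa using this
  have hsplit : ∑ b ∈ U, (F b).card
      = ∑ b ∈ S, (F b).card + ∑ b ∈ U.filter (fun b => ¬ M ≤ (F b).card * B), (F b).card :=
    (Finset.sum_filter_add_sum_filter_not U _ _).symm
  have hF1 : ∀ b, (F b).card ≤ M := by
    intro b
    have := Finset.card_filter_le (range M) (fun i => b ∈ T i)
    simpa [hF] using this
  have hA : ∑ b ∈ S, (F b).card ≤ S.card * M := by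
    have := Finset.sum_le_card_nsmul S (fun b => (F b).card) M (fun b _ => hF1 b)
    simpa using this
  have hC : ∑ b ∈ U.filter (fun b => ¬ M ≤ (F b).card * B), (F b).card ≤ M - 1 := by
    have h1 : (∑ b ∈ U.filter (fun b => ¬ M ≤ (F b).card * B), (F b).card) * B ≤ B * (M - 1) := by
      rw [Finset.sum_mul]
      have h2 := Finset.sum_le_card_nsmul (U.filter (fun b => ¬ M ≤ (F b).card * B))
        (fun b => (F b).card * B) (M - 1) (fun b hb => by
          have := (mem_filter.1 hb).2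
          omega)
      refine h2.trans ?_
      rw [smul_eq_mul]
      exact Nat.mul_le_mul_right _ ((Finset.card_filter_le _ _).trans hU)
    rw [mul_comm B] at h1
    exact Nat.le_of_mul_le_mul_right h1 hB
  have hcard : s ≤ S.card := by
    by_contra hlt
    have h3 : S.card + 1 ≤ s := by omega
    have h4 : M * (S.card + 1) ≤ M * s := Nat.mul_le_mul_left M h3
    have h5 : M * s ≤ S.card * M + (M - 1) := by
      rw [hsum, hsplit] at hlow
      omega
    have h6 : M * (S.card + 1) = S.card * M + M := by ring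
    omega
  -- Hall
  have hSU : S.card ≤ B := (Finset.card_filter_le _ _).trans hU
  have hFb : ∀ b ∈ S, R * B ≤ (F b).card := by
    intro b hb
    have h1 := (mem_filter.1 hb).2
    rw [hM] at h1
    exact Nat.le_of_mul_le_mul_right h1 hB
  have hall : ∃ f : Fin R × S → ℕ, Function.Injective f ∧ ∀ x, f x ∈ F x.2 := by
    rw [← Finset.all_card_le_biUnion_card_iff_exists_injective]
    intro A
    rcases A.eq_empty_or_nonempty with hA | ⟨x, hx⟩
    · rw [hA]; simp
    · have h1 : A.card ≤ R * B := by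
        refine (Finset.card_le_univ A).trans ?_
        rw [Fintype.card_prod, Fintype.card_fin, Fintype.card_coe]
        exact Nat.mul_le_mul_left R hSU
      refine h1.trans ((hFb x.2 x.2.2).trans ?_)
      exact Finset.card_le_card (Finset.subset_biUnion_of_mem (fun x : Fin R × S => F x.2) hx)
  obtain ⟨f, hf1, hf2⟩ := hall
  refine ⟨S, hcard, fun σ b => if h : σ < R ∧ b ∈ S then f (⟨σ, h.1⟩, ⟨b, h.2⟩) else 0, ?_, ?_⟩
  · intro σ hσ b hb
    have h : σ < R ∧ b ∈ S := ⟨hσ, hb⟩
    simp only [h, and_self, dif_pos]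
    have h2 := hf2 (⟨σ, hσ⟩, ⟨b, hb⟩)
    simp only [hF, mem_filter, mem_range] at h2
    exact h2
  · intro σ hσ σ' hσ' b hb b' hb' he
    have h : σ < R ∧ b ∈ S := ⟨hσ, hb⟩
    have h' : σ' < R ∧ b' ∈ S := ⟨hσ', hb'⟩
    simp only [h, h', and_self, dif_pos] at he
    have h2 := hf1 he
    rw [Prod.mk.injEq, Fin.mk.injEq] at h2
    exact h2.1

theorem obj_succ {P : Painter} {w : ℕ → ℕ} {B j R N s : ℕ} (hB : 1 ≤ B) (hR : 1 ≤ R)
    (hw : w j = 3 * (R * B * B)) (hq0 : ∃ q, Pos w j q) (hO : Obj P w B j (w j + 1) N s) :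
    Obj P w B (j + 1) R (R * B * B * (N + N + N)) ((3 * s + 1) / 2) := by
  classical
  intro n H Z hZ
  set M := R * B * B with hM
  have hM1 : 1 ≤ M := by
    rw [hM]
    exact Nat.mul_pos (Nat.mul_pos hR hB) hB
  have hw1 : 1 ≤ w j := by omega
  obtain ⟨H', T, G, h⟩ := row_of_gad (fun n H Z hZ => gad_of_obj hO n H Z hZ) n H
    (fun a q => Z (a :: q)) M (fun b hb q hq => hZ (b :: q) (pos_cons.2 ⟨by omega, hq⟩))
  have hSg : ∃ S : Finset ℕ, ((P.bins H' (range (n + M * (N + N + N)))).card ≤ B →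
      (3 * s + 1) / 2 ≤ S.card) ∧ ∃ g : ℕ → ℕ → ℕ,
      (∀ σ < R, ∀ b ∈ S, g σ b < M ∧ b ∈ T (g σ b)) ∧
      (∀ σ < R, ∀ σ' < R, ∀ b ∈ S, ∀ b' ∈ S, g σ b = g σ' b' → σ = σ') := by
    by_cases hBt : (P.bins H' (range (n + M * (N + N + N)))).card ≤ B
    · obtain ⟨S, h1, g, h2, h3⟩ := popular hB hR T (P.bins H' (range (n + M * (N + N + N)))) hBt
        (fun i hi => h.tsub i hi hw1 hq0) (h.size hBt)
      exact ⟨S, fun _ => h1, g, h2, h3⟩
    · exact ⟨∅, fun h => absurd h hBt, fun _ _ => 0, by simp, by simp⟩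
  obtain ⟨S, hs, g, hg1, hg2⟩ := hSg
  refine ⟨H', S, fun σ q => match q with
    | [] => ∅
    | a :: q' => S.biUnion (fun b => G (g σ b) a q'), h.agree, ?_, ?_, ?_, ?_, ?_⟩
  · rintro σ hσ q ⟨a, q', rfl, ha, hq'⟩
    simp only
    rw [Finset.biUnion_subset]
    intro b hb
    exact h.sub _ (hg1 σ hσ b hb).1 a ha q' hq'
  · rintro σ hσ q ⟨a, q', rfl, ha, hq'⟩ b hb
    simp only
    have h1 := h.bins _ (hg1 σ hσ b hb).1 a ha q' hq' (hg1 σ hσ b hb).2
    exact P.bins_mono H' (Finset.subset_biUnion_of_mem (fun b => G (g σ b) a q') hb) h1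
  · intro T0 hT0
    rw [Finset.disjoint_left]
    intro b hb hbT
    have h1 := hg1 0 hR b hb
    have h2 := h.disj T0 (fun a ha q hq => hT0 (a :: q) (pos_cons.2 ⟨by omega, hq⟩)) _ h1.1
    exact (Finset.disjoint_left.1 h2) h1.2 hbT
  · exact hs
  · intro c κs hκ
    obtain ⟨e, he⟩ := exists_ne' c
    -- the pattern demanded from gadget `i`
    set D : ℕ → Pat := fun i => if hi : ∃ σ, σ < R ∧ ∃ b ∈ S, g σ b = i then κs hi.choose
      else dflt e with hD
    have hD1 : ∀ i, Valid (D i) ∧ D i [] ≠ c := by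
      intro i
      by_cases hi : ∃ σ, σ < R ∧ ∃ b ∈ S, g σ b = i
      · simp only [hD, hi, dif_pos]
        exact hκ _ hi.choose_spec.1
      · simp only [hD, hi, dif_neg, not_false_eq_true]
        exact ⟨dflt_valid e, by rw [dflt_root]; exact he⟩
    have hD2 : ∀ σ < R, ∀ b ∈ S, D (g σ b) = κs σ := by
      intro σ hσ b hb
      have hi : ∃ σ', σ' < R ∧ ∃ b' ∈ S, g σ' b' = g σ b := ⟨σ, hσ, b, hb, rfl⟩
      simp only [hD, hi, dif_pos]
      obtain ⟨h1, b', hb', h2⟩ := hi.choose_spec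
      rw [hg2 _ h1 σ hσ b' hb' b hb h2]
    obtain ⟨κ, hv, χ, p, r⟩ := h.colour c (fun i => D i []) (fun i _ => (hD1 i).2)
      (fun i a => child (D i) a) (fun i _ a _ => ⟨child_valid (hD1 i).1 a,
        child_root (hD1 i).1 a⟩)
    refine ⟨node c (fun a => if a < 3 * M then κ a else dflt e), ?_, rfl, χ, ?_, ?_⟩
    · refine node_valid ?_ ?_
      · intro a
        by_cases ha : a < 3 * M
        · simp only [ha, if_true]; exact (hv a ha).1
        · simp only [ha, if_false]; exact dflt_valid e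
      · intro a
        by_cases ha : a < 3 * M
        · simp only [ha, if_true]; exact (hv a ha).2
        · simp only [ha, if_false]; rw [dflt_root]; exact he
    · rintro σ hσ q ⟨a, q', rfl, ha, hq'⟩ y hy
      simp only [Finset.mem_biUnion] at hy
      obtain ⟨b, hb, hy⟩ := hy
      rw [p _ (hg1 σ hσ b hb).1 a ha q' hq' y hy, hD2 σ hσ b hb]
      rfl
    · intro x hx1 hx2 y hy hyx
      rcases r x hx1 hx2 y hy hyx with h' | ⟨b, hb, q, hq, hyq, hne⟩
      · exact Or.inl h'
      · refine Or.inr ⟨b :: q, pos_cons.2 ⟨by omega, hq⟩, hyq, ?_⟩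
        have : node c (fun a => if a < 3 * M then κ a else dflt e) (b :: q) = κ b q := by
          simp only [node, hb, if_true]
        rw [this]
        exact hne

end Pool.Agent.H64.OC
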